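import Mathlib
import Pool.Agent.H.MP_dc2775_an.A

namespace Pool.Agent.Results.MP_dc2775_an.ZeroOne

open Set Filter Topology Pool.Agent.H.MP_dc2775_an

set_option maxHeartbeats 400000

/-- Sums of the convergent subseries (natural order) supported on members of the family `I`. -/
def Ach (x : ℕ → ℝ) (I : Set (Set ℕ)) : Set ℝ :=
  {s | ∃ A ∈ I, Tendsto (fun N => ∑ n ∈ Finset.range N, A.indicator x n) atTop (𝓝 s)}

theorem result (I : Set (Set ℕ)) (hU : ∀ A ∈ I, ∀ B ∈ I, A ∪ B ∈ I)
    (hS : ∀ A ∈ I, ∀ B ⊆ A, B ∈ I) (hF : ∀ A : Set ℕ, A.Finite → A ∈ I) (x : ℕ → ℝ)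
    (hx : ∃ s, Tendsto (fun N => ∑ n ∈ Finset.range N, x n) atTop (𝓝 s))
    (hB : BaireMeasurableSet (Subtype.val ⁻¹' Ach x I : Set (Ach x univ))) :
    IsMeagre (Subtype.val ⁻¹' Ach x I : Set (Ach x univ)) ∨
      (Subtype.val ⁻¹' Ach x I : Set (Ach x univ)) ∈ residual (Ach x univ) := by
  change BaireMeasurableSet (Subtype.val ⁻¹' Ac x I : Set (Ac x univ)) at hB
  change IsMeagre (Subtype.val ⁻¹' Ac x I : Set (Ac x univ)) ∨
      (Subtype.val ⁻¹' Ac x I : Set (Ac x univ)) ∈ residual (Ac x univ)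
  obtain ⟨s, hs⟩ := hx
  have hd := dich (x := x) (s := s) (hs.congr fun N => by simp [ps])
  have hcl : IsClosed (Ac x univ) := by
    rcases hd with h | h
    · exact (cpt h).isClosed
    · rw [h]; exact isClosed_univ
  rw [or_iff_not_imp_left]
  intro hm
  obtain ⟨O, hO, hMO⟩ := hB.residualEq_isOpen
  rcases (interior (Ac x univ)).eq_empty_or_nonempty with hi | hi
  · have hv : Summable x := hd.resolve_right fun h => by simp [h] at hi
    obtain ⟨S, S1, S2, S3, S4⟩ := mem_residual_iff.1 hMO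
    obtain ⟨D, hD⟩ := (S3.insert univ).exists_eq_range (insert_nonempty _ _)
    have hDm : ∀ k, D k ∈ insert univ S := fun k => hD ▸ mem_range_self k
    have hDo : ∀ k, IsOpen (D k) ∧ Dense (D k) := fun k => by
      rcases hDm k with h | h
      · rw [h]; exact ⟨isOpen_univ, dense_univ⟩
      · exact ⟨S1 _ h, S2 _ h⟩
    choose D' d1 d2 using fun k => isOpen_induced_iff.1 (hDo k).1
    obtain ⟨O', o1, rfl⟩ := isOpen_induced_iff.1 hO
    have hne : (O' ∩ Ac x univ).Nonempty := by
      by_contra hc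
      refine hm (mem_of_superset hMO fun y hy hy' => hc ⟨y, ?_, y.2⟩)
      exact (show (y.1 ∈ Ac x I) = (y.1 ∈ O') from hy) ▸ hy'
    have hD' : ∀ k W, IsOpen W → (W ∩ Ac x univ).Nonempty → (W ∩ D' k ∩ Ac x univ).Nonempty := by
      rintro k W hW ⟨y, y1, y2⟩
      obtain ⟨z, z1, z2⟩ := (hDo k).2.inter_open_nonempty _ (hW.preimage continuous_subtype_val)
        ⟨⟨y, y2⟩, y1⟩
      rw [← d2] at z2
      exact ⟨z, ⟨z1, z2⟩, z.2⟩
    have hM : ∀ y ∈ O' ∩ Ac x univ, (∀ k, y ∈ D' k) → y ∈ Ac x I := by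
      rintro y ⟨y1, y2⟩ hy
      have : (⟨y, y2⟩ : Ac x univ) ∈ ⋂₀ S := fun Z hZ => by
        obtain ⟨k, rfl⟩ : Z ∈ range D := hD ▸ mem_insert_of_mem _ hZ
        rw [← d2]; exact hy k
      exact (show (y ∈ Ac x I) = (y ∈ O') from S4 this) ▸ y1
    have p1 := pos hU hS hF hv hi o1 hne D' d1 hD' hM
    have p2 := pos (x := -x) hU hS hF hv.neg (O := -O')
      (by
        have := (Homeomorph.neg ℝ).preimage_interior (Ac x univ)
        rw [hi] at this
        rw [Ac_neg]; exact this.symm) o1.neg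
      (by obtain ⟨y, y1, y2⟩ := hne; exact ⟨-y, by simpa using y1, by simpa [Ac_neg] using y2⟩)
      (fun k => -D' k) (fun k => (d1 k).neg)
      (by
        rintro k W hW ⟨y, y1, y2⟩
        rw [Ac_neg] at y2
        obtain ⟨z, ⟨z1, z2⟩, z3⟩ := hD' k (-W) hW.neg ⟨-y, by simpa using y1, y2⟩
        exact ⟨-z, ⟨z1, by simpa using z2⟩, by simpa [Ac_neg] using z3⟩)
      (by
        rintro y ⟨y1, y2⟩ hy
        rw [Ac_neg] at y2 ⊢
        exact hM _ ⟨y1, y2⟩ hy)
    refine univ_mem' ?_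
    rintro ⟨y, A, -, hA⟩
    refine ⟨A ∩ ({i | 0 < x i} ∪ {i | 0 < (-x) i}), hS _ (hU _ p1 _ p2) _ inter_subset_right, ?_⟩
    have := change (B := A ∩ ({i | 0 < x i} ∪ {i | 0 < (-x) i})) hA 0 fun i _ => by
      by_cases h : i ∈ A
      · rcases lt_trichotomy (x i) 0 with h' | h' | h' <;> simp [indicator, h, h']
      · simp [indicator, h]
    simpa [ps] using this
  · have h1 : Ac x univ ⊆ closure (interior (Ac x univ)) := by
      intro u hu
      rw [Metric.mem_closure_iff]
      intro ε hε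
      have h2 := loc (x := x) (I := univ) (by simp) (by simp) (by simp)
        (fun h => not_isMeagre_of_isOpen isOpen_interior hi (h.mono interior_subset)) hu
        (half_pos hε)
      by_contra hc
      push Not at hc
      refine h2 (IsMeagre.mono (s := Ac x univ ∩ Metric.closedBall u (ε / 2))
        (inter_subset_inter_right _ Metric.ball_subset_closedBall) (IsNowhereDense.isMeagre ?_))
      rw [(hcl.inter Metric.isClosed_closedBall).isNowhereDense_iff, eq_empty_iff_forall_notMem]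
      intro y hy
      have h3 := hc y (interior_mono inter_subset_left hy)
      have h4 := (interior_subset hy).2
      rw [Metric.mem_closedBall, dist_comm] at h4
      linarith
    have h2 : ¬ IsMeagre (Ac x I) := by
      intro h
      apply hm
      obtain ⟨S, S1, S2, S3⟩ := isMeagre_iff_countable_union_isNowhereDense.1 h
      refine IsMeagre.mono (s := ⋃ Z ∈ S, Subtype.val ⁻¹' closure Z) (fun y hy => ?_)
        (isMeagre_biUnion S2 fun Z hZ => IsNowhereDense.isMeagre ?_)
      · obtain ⟨Z, hZ, h⟩ := S3 hy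
        exact mem_biUnion hZ (subset_closure h)
      · rw [(isClosed_closure.preimage continuous_subtype_val).isNowhereDense_iff,
          eq_empty_iff_forall_notMem]
        intro y hy
        obtain ⟨V, V1, V2, V3⟩ := mem_interior.1 hy
        obtain ⟨V', v1, rfl⟩ := isOpen_induced_iff.1 V2
        obtain ⟨z, z1, z2⟩ := mem_closure_iff.1 (h1 y.2) V' v1 V3
        have : V' ∩ interior (Ac x univ) ⊆ interior (closure Z) :=
          interior_maximal (fun w hw => V1 (a := ⟨w, interior_subset hw.2⟩) hw.1)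
            (v1.inter isOpen_interior)
        rw [S1 Z hZ] at this
        exact this ⟨z1, z2⟩
    have h3 : Dense O := by
      rw [dense_iff_inter_open]
      rintro V hV ⟨u, hu⟩
      by_contra hc
      obtain ⟨V', v1, rfl⟩ := isOpen_induced_iff.1 hV
      obtain ⟨ε, hε, hb⟩ := Metric.isOpen_iff.1 v1 u hu
      refine loc hU hS hF h2 u.2 hε (IsMeagre.mono ?_ (IsMeagre.image_val (s := Ac x univ)
        (m := {y | (y.1 ∈ Ac x I) = (y ∈ O)}ᶜ) (by rw [IsMeagre, compl_compl]; exact hMO)))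
      rintro y ⟨⟨A, hA, h⟩, y2⟩
      refine ⟨⟨y, A, trivial, h⟩, fun h' => hc ⟨⟨y, A, trivial, h⟩, hb y2, ?_⟩, rfl⟩
      exact (show (y ∈ Ac x I) = _ from h') ▸ ⟨A, hA, h⟩
    filter_upwards [hMO, residual_of_dense_open hO h3] with y y1 y2
    exact (show (y.1 ∈ Ac x I) = (y ∈ O) from y1) ▸ y2

end Pool.Agent.Results.MP_dc2775_an.ZeroOne
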